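import Pool.Agent.Q35.TT.Stm

/-!
# Unramified places: the abscissas of torsion points are integral (GLB of project TT)
-/

set_option autoImplicit false

open WeierstrassCurve Pool.Agent.Y720.MZ Height AdmissibleAbsValues Pool.Agent.Q35.TT

namespace Pool.Agent.Q193.TT

/-- GLB: at an unramified place the abscissas of the points of finite order are integral. -/
theorem glb : S_GLB := by
  intro K _ _ v p hp a b c x y ha hb hc _ n hn ht
  let _ : DecidableEq K := Classical.decEq K
  obtain ⟨h, hn0⟩ := ht
  rw [pow_zero, mul_one]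
  by_contra hx
  rw [not_le] at hx
  obtain ⟨hy, h1, h2, h3, h4⟩ := val_ts hp.na ha hb hc hx (cv_ns.1 h).1
  have e1 : v (y / x) = (v (x / y))⁻¹ := by rw [← map_inv₀, inv_div]
  have hu : 1 < v (y / x) := by
    rw [e1]
    exact (one_lt_inv₀ h3).2 h2
  have h5 := hp.un _ hu
  have h6 : v (y / x) ^ 2 = v x := by
    rw [e1, inv_pow]
    field_simp
    linarith [h1]
  rw [h6] at h5
  exact infinite_order hp.na ha hb hc (by have := hp.p5; omega) hp.unit hp.lt h h5 n hn hn0

end Pool.Agent.Q193.TT
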