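import Pool.Agent.Q35.TT.Stm
import Mathlib.RingTheory.DedekindDomain.Different
import Mathlib.RingTheory.Ideal.Int
import Mathlib.NumberTheory.NumberField.Completion.FinitePlace

/-!
# The places of a number field (PLA of project TT)
-/

set_option autoImplicit false

open Height AdmissibleAbsValues Pool.Agent.Q35.TT IsDedekindDomain NumberField WithZero Ideal
open scoped NNReal nonZeroDivisors

namespace Pool.Agent.Q193.TT

variable {K : Type} [Field K] [NumberField K]

lemma mem_non {v : AbsoluteValue K ℝ} :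
    v ∈ nonarchAbsVal (K := K) ↔ ∃ P : HeightOneSpectrum (𝓞 K),
      place (FinitePlace.embedding P) = v := Iff.rfl

lemma pl_nat (P : HeightOneSpectrum (𝓞 K)) (k : ℕ) :
    place (FinitePlace.embedding P) (k : K) =
      ‖FinitePlace.embedding P (algebraMap (𝓞 K) K (k : 𝓞 K))‖ := by
  rw [place_apply, map_natCast (algebraMap (𝓞 K) K)]

/-- the prime number under a maximal ideal -/
noncomputable def up (P : HeightOneSpectrum (𝓞 K)) : ℕ := absNorm (under ℤ P.asIdeal)

omit [NumberField K] in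
lemma up_prime (P : HeightOneSpectrum (𝓞 K)) : (up P).Prime := by
  have : NeZero P.asIdeal := ⟨P.ne_bot⟩
  exact Nat.absNorm_under_prime P.asIdeal

omit [NumberField K] in
lemma up_mem (P : HeightOneSpectrum (𝓞 K)) : ((up P : ℕ) : 𝓞 K) ∈ P.asIdeal :=
  Int.absNorm_under_mem P.asIdeal

lemma up_lt (P : HeightOneSpectrum (𝓞 K)) :
    place (FinitePlace.embedding P) ((up P : ℕ) : K) < 1 := by
  rw [pl_nat]
  exact (FinitePlace.norm_lt_one_iff_mem K P _).2 (up_mem P)

lemma up_unit (P : HeightOneSpectrum (𝓞 K)) {k : ℕ} (h1 : 1 ≤ k) (h2 : k < up P) :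
    place (FinitePlace.embedding P) (k : K) = 1 := by
  rw [pl_nat]
  refine (FinitePlace.norm_eq_one_iff_notMem K P _).2 fun hk => ?_
  have hc : Nat.Coprime k (up P) :=
    ((up_prime P).coprime_iff_not_dvd.2 fun hd => by
      have := Nat.le_of_dvd (by omega) hd; omega).symm
  have hz : IsCoprime (k : ℤ) (up P : ℤ) := Nat.isCoprime_iff_coprime.2 hc
  obtain ⟨a, b, hab⟩ := hz
  have h3 : ((a : ℤ) : 𝓞 K) * (k : 𝓞 K) + ((b : ℤ) : 𝓞 K) * ((up P : ℕ) : 𝓞 K) = 1 := by
    exact_mod_cast congrArg (fun z : ℤ => (z : 𝓞 K)) hab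
  have h4 : (1 : 𝓞 K) ∈ P.asIdeal := by
    rw [← h3]
    exact P.asIdeal.add_mem (P.asIdeal.mul_mem_left _ hk) (P.asIdeal.mul_mem_left _ (up_mem P))
  exact P.isPrime.ne_top ((Ideal.eq_top_iff_one _).2 h4)

/-- ramified places -/
lemma sq_dvd (P : HeightOneSpectrum (𝓞 K)) {u : K}
    (h1 : 1 < place (FinitePlace.embedding P) u)
    (h2 : ¬ 1 < place (FinitePlace.embedding P) u ^ 2 *
      place (FinitePlace.embedding P) ((up P : ℕ) : K)) :
    P.asIdeal ^ 2 ∣ Ideal.span {((up P : ℕ) : 𝓞 K)} := by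
  have hq := NumberField.HeightOneSpectrum.one_lt_absNorm_nnreal P
  rw [not_lt] at h2
  rw [place_apply, FinitePlace.norm_embedding'] at h1
  rw [place_apply, place_apply, FinitePlace.norm_embedding', FinitePlace.norm_embedding'] at h2
  have hs := WithZeroMulInt.toNNReal_strictMono hq
  have h3 : 1 < P.valuation K u := by
    rw [← hs.lt_iff_lt, map_one]
    exact_mod_cast h1
  have h4 : P.valuation K u ^ 2 * P.valuation K ((up P : ℕ) : K) ≤ 1 := by
    rw [← hs.le_iff_le, map_one, map_mul, map_pow]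
    exact_mod_cast h2
  have hu0 : P.valuation K u ≠ 0 := (zero_lt_one.trans h3).ne'
  have hp0 : P.valuation K ((up P : ℕ) : K) ≠ 0 := by
    rw [Valuation.ne_zero_iff]
    exact_mod_cast (up_prime P).ne_zero
  have he : P.valuation K ((up P : ℕ) : K) = P.intValuation ((up P : ℕ) : 𝓞 K) := by
    rw [← map_natCast (algebraMap (𝓞 K) K) (up P)]
    exact HeightOneSpectrum.valuation_of_algebraMap P _
  rw [← HeightOneSpectrum.intValuation_le_pow_iff_dvd, ← he]
  rw [← exp_log hu0, ← exp_zero, exp_lt_exp] at h3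
  rw [← exp_log hu0, ← exp_log hp0, ← exp_nsmul, ← exp_add, ← exp_zero, exp_le_exp] at h4
  rw [← exp_log hp0, exp_le_exp]
  simp only [nsmul_eq_mul] at h4
  push_cast at h4 ⊢
  omega

lemma dvd_diff (P : HeightOneSpectrum (𝓞 K))
    (h : P.asIdeal ^ 2 ∣ Ideal.span {((up P : ℕ) : 𝓞 K)}) :
    P.asIdeal ∣ differentIdeal ℤ (𝓞 K) := by
  have hp : Prime ((up P : ℕ) : ℤ) := Nat.prime_iff_prime_int.1 (up_prime P)
  have : (Ideal.span {((up P : ℕ) : ℤ)}).IsMaximal :=
    PrincipalIdealRing.isMaximal_of_irreducible hp.irreducible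
  have h1 := pow_sub_one_dvd_differentIdeal ℤ (B := 𝓞 K) (p := Ideal.span {((up P : ℕ) : ℤ)})
    P.asIdeal 2 (by rw [Ne, Ideal.span_singleton_eq_bot]; exact hp.ne_zero)
    (by rw [Ideal.map_span, Set.image_singleton, map_natCast]; exact h)
  exact (pow_one P.asIdeal) ▸ h1

/-- PLA: the places of a number field. -/
theorem pla : S_PLA := by
  intro K _ _
  refine ⟨fun v hv n => ?_, fun v hv => ?_, ?_⟩
  · have hv' : v ∈ multisetInfinitePlace K := hv
    rw [mem_multisetInfinitePlace] at hv'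
    obtain ⟨w, rfl⟩ := (isInfinitePlace_iff v).1 hv'
    exact InfinitePlace.map_natCast w n
  · obtain ⟨P, rfl⟩ := mem_non.1 hv
    exact ⟨up P, up_prime P, up_lt P⟩
  · have hI : Ideal.span {(6 : 𝓞 K)} * differentIdeal ℤ (𝓞 K) ≠ ⊥ := by
      refine mul_ne_zero ?_ differentIdeal_ne_bot
      rw [Submodule.zero_eq_bot, Ne, Ideal.span_singleton_eq_bot]
      norm_num
    refine ((Ideal.finite_factors hI).image
      fun P : HeightOneSpectrum (𝓞 K) => place (FinitePlace.embedding P)).subset ?_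
    rintro v ⟨hv, hb⟩
    have hna := AdmissibleAbsValues.isNonarchimedean v hv
    obtain ⟨P, rfl⟩ := mem_non.1 hv
    refine ⟨P, ?_, rfl⟩
    by_contra hd
    refine hb ⟨up P, up_prime P, ?_, hna, fun k => up_unit P, up_lt P, fun u hu => ?_⟩
    · by_contra h5
      have h6 : up P ∣ 6 := by
        have h7 := (up_prime P).two_le
        have h8 : up P < 5 := by omega
        have h9 := up_prime P
        interval_cases up P
        · norm_num
        · norm_num
        · exact absurd h9 (by norm_num)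
      obtain ⟨c, hc⟩ := h6
      refine hd (dvd_mul_of_dvd_left ?_ _)
      rw [Ideal.dvd_span_singleton]
      have h10 : (6 : 𝓞 K) = (c : 𝓞 K) * ((up P : ℕ) : 𝓞 K) := by
        have : ((6 : ℕ) : 𝓞 K) = ((up P * c : ℕ) : 𝓞 K) := by rw [← hc]
        push_cast at this
        rw [this, mul_comm]
      rw [h10]
      exact P.asIdeal.mul_mem_left _ (up_mem P)
    · by_contra hn
      exact hd (dvd_mul_of_dvd_right (dvd_diff P (sq_dvd P hu hn)) _)

end Pool.Agent.Q193.TT
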